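import Mathlib
import Pool.Agent.H22.PP.Final

/-! Two-term brick filtrations of non-simple bricks in torsion-free classes over the
preprojective algebras of types `E₇` and `E₈`. The proof is uniform: it works for every finite
graph whose Cartan form is positive definite (`Pool.Agent.H22.PP.twoTerm_preproj`). -/

namespace Pool.Agent.Results.MP_000489_al.TwoTermBricks

open Pool.Agent.H22.PP

universe u v

/-- Let `K` be a field and let `Π` be the preprojective algebra of type `E₇` or `E₈` over `K`.
For every torsion-free class `F` of finite-dimensional `Π`-modules and every brick `B` in `F`
that is not a simple object of `F` there are a semibrick `{S, T}` in `F` and a short exact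
sequence `0 → S → B → T → 0`. -/
theorem result (K : Type u) [Field K] :
    TwoTermBrickFiltrations.{u, u, v} K (Preprojective K (dynkinGraph CartanMatrix.E₇)) ∧
      TwoTermBrickFiltrations.{u, u, v} K (Preprojective K (dynkinGraph CartanMatrix.E₈)) :=
  ⟨twoTerm_preproj K _ pos_E7, twoTerm_preproj K _ pos_E8⟩

end Pool.Agent.Results.MP_000489_al.TwoTermBricks
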